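import Pool.Agent.H32.StrongK

/-!
# A Banach space without strong subspaces of dimension at least two

For real and for complex scalars there is an equivalent norm on the separable infinite dimensional Hilbert
space for which no subspace of dimension at least two is strong.
-/

set_option autoImplicit false

namespace Pool.Agent.Results.MP_8cad90_an.NoStrongSubspace

open Pool.Agent.H32.StrongK

/-- `G` is strong, first form: some `x ≠ 0` satisfies `‖g + α x‖ ≥ ‖g‖` for all `g ∈ G` and all scalars. -/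
def Strong (𝕜 E : Type) [RCLike 𝕜] [NormedAddCommGroup E] [NormedSpace 𝕜 E] (G : Submodule 𝕜 E) : Prop :=
  ∃ x : E, x ≠ 0 ∧ ∀ g ∈ G, ∀ α : 𝕜, ‖g‖ ≤ ‖g + α • x‖

/-- `G` is strong, second form: there are a subspace `G₀` strictly larger than `G` and a map `u` which is
on `G₀` a linear projection onto `G` of norm at most one (the values of `u` outside `G₀` are irrelevant). -/
def StrongProj (𝕜 E : Type) [RCLike 𝕜] [NormedAddCommGroup E] [NormedSpace 𝕜 E] (G : Submodule 𝕜 E) : Prop :=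
  ∃ (G₀ : Submodule 𝕜 E) (u : E → E), G < G₀ ∧
    (∀ x ∈ G₀, ∀ y ∈ G₀, ∀ α : 𝕜, u (x + α • y) = u x + α • u y) ∧
    (∀ x ∈ G₀, u x ∈ G ∧ ‖u x‖ ≤ ‖x‖) ∧ ∀ g ∈ G, u g = g

/-- `E` is linearly isomorphic, with constant 3, to the Hilbert space of square summable sequences: there is
a linear map `T` of `E` into the sequences whose image is the set of square summable sequences, with
`∑ |(T x)_n|^2 ≤ ‖x‖^2 ≤ 9 ∑ |(T x)_n|^2`. -/
def HilbertIso (𝕜 E : Type) [RCLike 𝕜] [NormedAddCommGroup E] [NormedSpace 𝕜 E] : Prop :=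
  ∃ T : E → ℕ → 𝕜, (∀ (x y : E) (α : 𝕜) (n : ℕ), T (x + α • y) n = T x n + α * T y n) ∧
    (∀ b : ℕ → 𝕜, (Summable fun n => ‖b n‖ ^ 2) ↔ ∃ x : E, T x = b) ∧
    ∀ x : E, ∑' n, ‖T x n‖ ^ 2 ≤ ‖x‖ ^ 2 ∧ ‖x‖ ^ 2 ≤ 9 * ∑' n, ‖T x n‖ ^ 2

lemma norm_sq_eq {𝕜 : Type} [RCLike 𝕜] (x : H 𝕜) : ‖x‖ ^ 2 = ∑' n, ‖x n‖ ^ 2 := by
  have h := lp.norm_rpow_eq_tsum (p := 2) (by norm_num) x
  simpa using h

lemma memlp_iff {𝕜 : Type} [RCLike 𝕜] (b : ℕ → 𝕜) :
    Memℓp b 2 ↔ Summable fun n => ‖b n‖ ^ 2 := by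
  have h := memℓp_gen_iff (p := 2) (f := b) (by norm_num)
  simpa using h

/-- For `𝕜 = ℝ` and for `𝕜 = ℂ` there is an infinite dimensional Banach space `E` over `𝕜`, linearly
isomorphic to the Hilbert space `l^2(𝕜)` with constant 3, in which no subspace of dimension at least 2
(closed or not) is strong, in either form. -/
theorem result (𝕜 : Type) [RCLike 𝕜] :
    ∃ (E : Type) (_ : NormedAddCommGroup E) (_ : NormedSpace 𝕜 E),
      CompleteSpace E ∧ ¬ FiniteDimensional 𝕜 E ∧ HilbertIso 𝕜 E ∧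
      ∀ G : Submodule 𝕜 E, 2 ≤ Module.rank 𝕜 G → ¬ Strong 𝕜 E G ∧ ¬ StrongProj 𝕜 E G := by
  refine ⟨E 𝕜, inferInstance, inferInstance, inferInstance, not_finiteDimensional 𝕜, ?_, ?_⟩
  · refine ⟨fun x n => (toH x) n, fun x y α n => rfl, fun b => ?_, fun x => ?_⟩
    · rw [← memlp_iff]
      constructor
      · intro hb
        exact ⟨ofH ⟨b, hb⟩, rfl⟩
      · rintro ⟨x, rfl⟩
        exact (toH x).2
    · have h1 := (main 𝕜).1 x
      have h2 := norm_sq_eq (toH x)
      have h3 := norm_nonneg (toH x)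
      constructor
      · rw [← h2]
        have := h1.1
        gcongr
      · rw [← h2]
        have := h1.2
        nlinarith [norm_nonneg x]
  · intro G hG
    constructor
    · rintro ⟨x, hx0, hx⟩
      obtain ⟨g, hg, α, hgα⟩ := (main 𝕜).2 G hG x hx0
      exact absurd (hx g hg α) (not_le.mpr hgα)
    · rintro ⟨G₀, u, hlt, hlin, hu1, hu2⟩
      obtain ⟨x, hx₀, hx⟩ := SetLike.exists_of_lt hlt
      have hux : u x ∈ G₀ := hlt.le (hu1 x hx₀).1
      set z : E 𝕜 := x + (-1 : 𝕜) • u x with hz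
      have hz₀ : z ∈ G₀ := G₀.add_mem hx₀ (G₀.smul_mem _ hux)
      have huz : u z = 0 := by
        rw [hz, hlin x hx₀ (u x) hux, hu2 (u x) (hu1 x hx₀).1]
        rw [neg_one_smul, add_neg_cancel]
      have hz0 : z ≠ 0 := by
        intro h
        apply hx
        rw [hz, neg_one_smul, ← sub_eq_add_neg] at h
        rw [sub_eq_zero.mp h]
        exact (hu1 x hx₀).1
      obtain ⟨g, hg, α, hgα⟩ := (main 𝕜).2 G hG z hz0
      have hg₀ : g ∈ G₀ := hlt.le hg
      have h4 := (hu1 (g + α • z) (G₀.add_mem hg₀ (G₀.smul_mem _ hz₀))).2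
      rw [hlin g hg₀ z hz₀, huz, smul_zero, add_zero, hu2 g hg] at h4
      exact absurd h4 (not_le.mpr hgα)

end Pool.Agent.Results.MP_8cad90_an.NoStrongSubspace
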